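import Pool.Agent.Work.MP_6985d1_gg.Interface

/-!
# Bad vertices of a block
-/

set_option autoImplicit false

namespace GrigGrowth.helper28

open Equiv

theorem sum_filter_le (l : List ℕ) (p : ℕ → Bool) (g h : ℕ → ℝ) (hh : ∀ j, 0 ≤ h j)
    (hg : ∀ j ∈ l, p j = true → g j ≤ h j) : ((l.filter p).map g).sum ≤ (l.map h).sum := by
  induction l with
  | nil => simp
  | cons x l ih =>
    have ih' := ih (fun j hj => hg j (List.mem_cons_of_mem _ hj))
    rw [List.filter_cons]
    split_ifs with hx
    · simp only [List.map_cons, List.sum_cons]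
      have := hg x List.mem_cons_self hx
      linarith
    · simp only [List.map_cons, List.sum_cons]
      have := hh x
      linarith

theorem sum_pow_range (F n : ℕ) :
    ∑ j ∈ Finset.range (n + 1), (if 1 ≤ j ∧ j ≤ F then (2 : ℝ) ^ j else 0) =
      2 ^ (min n F + 1) - 2 := by
  induction n with
  | zero => simp
  | succ n ih =>
    rw [Finset.sum_range_succ, ih]
    by_cases h : n + 1 ≤ F
    · rw [if_pos ⟨by omega, h⟩, min_eq_left h, min_eq_left (by omega)]
      ring
    · rw [if_neg (by omega), min_eq_right (by omega), min_eq_right (by omega)]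
      ring

theorem stmt_JSPEC (hN : Stmt_PHN) (hS : Stmt_PHS) : Stmt_JSPEC := by
  intro D M m hm hD
  set F := fspec M m with hF
  have hjD : ∀ j ∈ List.range (ftop M m + 1), j < D := by
    intro j hj
    rw [List.mem_range] at hj
    unfold ftop at hj
    unfold dep at hD
    omega
  have hbound : Rsum D ((JJ M m).map some) ≤ 2 ^ (min (ftop M m) F + 1) - 2 := by
    unfold Rsum
    rw [List.map_map]
    have h1 := sum_filter_le (List.range (ftop M m + 1))
      (fun j => decide (j = 0 ∨ ¬ 3 ∣ j ∨ j ≤ fspec M m))
      ((fun i => ∑ v ∈ vs D, rr (iw i) v) ∘ some)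
      (fun j => if 1 ≤ j ∧ j ≤ F then (2 : ℝ) ^ j else 0)
      (by
        intro j
        show (0 : ℝ) ≤ if 1 ≤ j ∧ j ≤ F then (2 : ℝ) ^ j else 0
        split_ifs
        · positivity
        · exact le_rfl)
      (by
        intro j hj hp
        have hp' : j = 0 ∨ ¬ 3 ∣ j ∨ j ≤ fspec M m := by simpa using hp
        have hjd := hjD j hj
        by_cases h0 : j = 0 ∨ ¬ 3 ∣ j
        · have hz : ∀ v ∈ vs D, rr (iw (some j)) v = 0 := by
            intro v hv
            have hl : v.length = D := by simpa using hv
            have := hN j h0 v (by omega)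
            simp [rr, iw, this]
          have : ((fun i => ∑ v ∈ vs D, rr (iw i) v) ∘ some) j = 0 := by
            simp only [Function.comp]
            exact Finset.sum_eq_zero hz
          rw [this]
          show (0 : ℝ) ≤ if 1 ≤ j ∧ j ≤ F then (2 : ℝ) ^ j else 0
          split_ifs
          · positivity
          · exact le_rfl
        · push Not at h0
          have hjF : j ≤ F := by
            rcases hp' with h | h | h
            · exact absurd h h0.1
            · exact absurd h0.2 h
            · exact h
          have hj1 : 1 ≤ j := Nat.one_le_iff_ne_zero.mpr h0.1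
          rw [if_pos ⟨hj1, hjF⟩]
          exact hS j D hjd)
    have h2 : ((List.range (ftop M m + 1)).map
        (fun j => if 1 ≤ j ∧ j ≤ F then (2 : ℝ) ^ j else 0)).sum =
        ∑ j ∈ Finset.range (ftop M m + 1), (if 1 ≤ j ∧ j ≤ F then (2 : ℝ) ^ j else 0) := rfl
    rw [h2, sum_pow_range] at h1
    exact h1
  have hpos : (0 : ℝ) < 2 ^ (3 * ((M - m) / 24) + 12) := by positivity
  by_cases hF0 : F = 0
  · have : Rsum D ((JJ M m).map some) ≤ 0 := by
      have := hbound
      rw [hF0] at this
      simpa using this
    have h2 : Rsum D ((JJ M m).map some) * 2 ^ (3 * ((M - m) / 24) + 12) ≤ 0 :=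
      mul_nonpos_of_nonpos_of_nonneg this hpos.le
    have h3 : (0 : ℝ) ≤ 2 ^ m := by positivity
    linarith
  · have hFm : F + (3 * ((M - m) / 24) + 13) = m := by
      rw [hF] at hF0 ⊢
      unfold fspec at hF0 ⊢
      omega
    have h4 : (2 : ℝ) ^ (min (ftop M m) F + 1) ≤ 2 ^ (F + 1) :=
      pow_le_pow_right₀ (by norm_num) (by omega)
    have h5 : Rsum D ((JJ M m).map some) ≤ 2 ^ (F + 1) := by linarith
    calc Rsum D ((JJ M m).map some) * 2 ^ (3 * ((M - m) / 24) + 12)
        ≤ 2 ^ (F + 1) * 2 ^ (3 * ((M - m) / 24) + 12) :=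
          mul_le_mul_of_nonneg_right h5 hpos.le
      _ = 2 ^ m := by
          rw [← pow_add]
          congr 1
          omega

end GrigGrowth.helper28
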