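import Pool.Agent.Work.MP_6985d1_gg.Interface

/-!
# The lift
-/

set_option autoImplicit false

namespace GrigGrowth.helper28

open Equiv

theorem zb_false (v : List Bool) :
    W (wd (zl .b)) (false :: v) = true :: act .a (act .b (act .a v)) := by
  simp [wd, zl, act]

theorem zb_true (v : List Bool) :
    W (wd (zl .b)) (true :: v) = false :: act .c (act .d v) := by
  simp [wd, zl, act]

theorem zc_false (v : List Bool) :
    W (wd (zl .c)) (false :: v) = false :: act .c (act .a v) := by
  simp [wd, zl, act]

theorem zc_true (v : List Bool) :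
    W (wd (zl .c)) (true :: v) = true :: act .a (act .c v) := by
  simp [wd, zl, act]

theorem zd_false (v : List Bool) :
    W (wd (zl .d)) (false :: v) = false :: act .d (act .a v) := by
  simp [wd, zl, act]

theorem zd_true (v : List Bool) :
    W (wd (zl .d)) (true :: v) = true :: act .a (act .d v) := by
  simp [wd, zl, act]

theorem act_cd (v : List Bool) : act .c (act .d v) = act .b v := by
  have h : ∀ v : List Bool, act .c (act .d v) = act .b v ∧ act .d (act .b v) = act .c v ∧
      act .b (act .c v) = act .d v := by
    intro v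
    induction v with
    | nil => simp
    | cons x v ih =>
      obtain ⟨h1, h2, h3⟩ := ih
      cases x <;> simp [act, act_act, h1, h2, h3]
  exact (h v).1

theorem wd_append (u v : List L) : wd (u ++ v) = wd u ++ wd v := by
  simp [wd]

theorem zeta_cons (y : L) (u : List L) : zeta (y :: u) = zl y ++ zeta u := by
  simp [zeta]

theorem wd_cons (y : L) (u : List L) : wd (y :: u) = .a :: y :: wd u := by
  simp [wd]

theorem lift_aux (u : List L) (hu : ∀ y ∈ u, y ≠ .a) :
    (Even (u.count .b) →
      (∀ v, W (wd (zeta u)) (false :: v) = false :: act .a (W (wd u) (act .a v))) ∧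
      ∀ v, W (wd (zeta u)) (true :: v) = true :: W (wd u) v) ∧
    (¬ Even (u.count .b) →
      (∀ v, W (wd (zeta u)) (false :: v) = true :: W (wd u) (act .a v)) ∧
      ∀ v, W (wd (zeta u)) (true :: v) = false :: act .a (W (wd u) v)) := by
  induction u with
  | nil => simp [zeta, wd, act_act]
  | cons y u ih =>
    have ih' := ih (fun z hz => hu z (List.mem_cons_of_mem _ hz))
    have hy := hu y (List.mem_cons_self)
    have hW : ∀ v, W (wd (zeta (y :: u))) v = W (wd (zl y)) (W (wd (zeta u)) v) := by
      intro v
      rw [zeta_cons, wd_append, W_append]; rfl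
    have hU : ∀ v, W (wd (y :: u)) v = act .a (act y (W (wd u) v)) := by
      intro v
      rw [wd_cons]; simp
    cases y with
    | a => exact absurd rfl hy
    | b =>
      have hc : Even ((L.b :: u).count .b) ↔ ¬ Even (u.count .b) := by
        rw [List.count_cons_self, Nat.even_add_one]
      rw [hc]
      constructor
      · intro h
        obtain ⟨h1, h2⟩ := ih'.2 h
        refine ⟨fun v => ?_, fun v => ?_⟩
        · rw [hW, h1, zb_true, act_cd, hU, act_act]
        · rw [hW, h2, zb_false, hU, act_act]
      · intro h
        obtain ⟨h1, h2⟩ := ih'.1 (not_not.mp h)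
        refine ⟨fun v => ?_, fun v => ?_⟩
        · rw [hW, h1, zb_false, hU, act_act]
        · rw [hW, h2, zb_true, act_cd, hU, act_act]
    | c =>
      have hc : (L.c :: u).count .b = u.count .b := by simp
      rw [hc]
      constructor
      · intro h
        obtain ⟨h1, h2⟩ := ih'.1 h
        refine ⟨fun v => ?_, fun v => ?_⟩
        · rw [hW, h1, zc_false, hU, act_act, act_act]
        · rw [hW, h2, zc_true, hU]
      · intro h
        obtain ⟨h1, h2⟩ := ih'.2 h
        refine ⟨fun v => ?_, fun v => ?_⟩
        · rw [hW, h1, zc_true, hU]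
        · rw [hW, h2, zc_false, hU, act_act, act_act]
    | d =>
      have hc : (L.d :: u).count .b = u.count .b := by simp
      rw [hc]
      constructor
      · intro h
        obtain ⟨h1, h2⟩ := ih'.1 h
        refine ⟨fun v => ?_, fun v => ?_⟩
        · rw [hW, h1, zd_false, hU, act_act, act_act]
        · rw [hW, h2, zd_true, hU]
      · intro h
        obtain ⟨h1, h2⟩ := ih'.2 h
        refine ⟨fun v => ?_, fun v => ?_⟩
        · rw [hW, h1, zd_true, hU]
        · rw [hW, h2, zd_false, hU, act_act, act_act]

theorem stmt_LIFT : Stmt_LIFT := by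
  intro u hu he
  obtain ⟨h1, h2⟩ := (lift_aux u hu).1 he
  refine ⟨fun v => ?_, h2⟩
  rw [h1 v]
  simp [Perm.mul_apply]

end GrigGrowth.helper28
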