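import Pool.Agent.Work.MP_6985d1_gg_helper28.LIFT

/-!
# Germ counts of the flips
-/

set_option autoImplicit false

namespace GrigGrowth.helper28

open Equiv

theorem sig_ne {y : L} (hy : y ≠ .a) : sig y ≠ .a := by
  cases y <;> simp [sig] at *

theorem chi_a (y : L) : chi y .a = 0 := by simp [chi]

theorem ph_single (y s : L) (v : List Bool) :
    ph y [s] v = if v = List.replicate v.length true then chi y s else 0 := by
  simp [ph]

/-- conjugating by `a` -/
theorem ph_conj (y : L) (w : List L) (v : List Bool) :
    ph y ([.a] ++ w ++ [.a]) v = ph y w (act .a v) := by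
  rw [ph_append, ph_append, ph_single, ph_single]
  simp [chi_a]

theorem ph_lift (h1 : Stmt_PHSEC) (h2 : Stmt_PHW) (y : L) (hy : y ≠ .a) (u : List L)
    (hu : ∀ y ∈ u, y ≠ .a) (he : Even (u.count .b)) (v : List Bool) :
    ph y (wd (zeta u)) (false :: v) = ph (sig y) (wd u) (act .a v) ∧
    ph y (wd (zeta u)) (true :: v) = ph (sig y) (wd u) v := by
  obtain ⟨l1, l2⟩ := stmt_LIFT u hu he
  constructor
  · rw [h1 y hy]
    rw [← ph_conj]
    apply h2 _ (sig_ne hy)
    ext1 t
    have h3 := l1 t
    rw [W_apply_cons] at h3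
    have h4 := (List.cons.inj h3).2
    rw [h4]
    simp [mul_assoc]
  · rw [h1 y hy]
    apply h2 _ (sig_ne hy)
    ext1 t
    have h3 := l2 t
    rw [W_apply_cons] at h3
    exact (List.cons.inj h3).2

theorem zeta_ne {u : List L} : ∀ y ∈ zeta u, y ≠ .a := by
  intro y hy
  rw [zeta, List.mem_flatMap] at hy
  obtain ⟨x, _, hx⟩ := hy
  cases x <;> simp [zl] at hx <;> rcases hx with rfl | rfl | rfl <;> simp

theorem iter_ne {z : L} (hz : z ≠ .a) (j : ℕ) : ∀ y ∈ zeta^[j] [z], y ≠ .a := by
  cases j with
  | zero => simpa using hz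
  | succ j => rw [Function.iterate_succ_apply']; exact zeta_ne

theorem zeta_count (u : List L) : (Even ((zeta u).count .b) ↔ Even (u.count .b)) := by
  induction u with
  | nil => simp [zeta]
  | cons y u ih =>
    rw [zeta_cons, List.count_append]
    cases y with
    | a => simpa [zl] using ih
    | b =>
      rw [List.count_cons_self]
      have : (zl .b).count .b = 1 := by decide
      rw [this, add_comm, Nat.even_add_one, Nat.even_add_one, ih]
    | c =>
      have : (zl .c).count .b = 2 := by decide
      rw [this, Nat.even_add, ih]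
      simp
    | d =>
      have : (zl .d).count .b = 0 := by decide
      rw [this, zero_add, ih]
      simp

theorem iter_even {z : L} (hz : z ≠ .b) (j : ℕ) : Even ((zeta^[j] [z]).count .b) := by
  induction j with
  | zero => simp [hz]
  | succ j ih => rw [Function.iterate_succ_apply', zeta_count]; exact ih

theorem ph_iter_zero (h1 : Stmt_PHSEC) (h2 : Stmt_PHW) (j : ℕ) : ∀ (y z : L), y ≠ .a → z ≠ .a →
    z ≠ .b → z = sig^[j] y → ∀ v : List Bool, j ≤ v.length → ph y (wd (zeta^[j] [z])) v = 0 := by
  induction j with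
  | zero =>
    intro y z hy hz hzb hzy v _
    have : z = y := by simpa using hzy
    subst this
    simp [wd, ph, chi]
  | succ j ih =>
    intro y z hy hz hzb hzy v hv
    rw [Function.iterate_succ_apply']
    rw [Function.iterate_succ_apply] at hzy
    cases v with
    | nil => simp at hv
    | cons x v =>
      obtain ⟨l1, l2⟩ := ph_lift h1 h2 y hy (zeta^[j] [z]) (iter_ne hz j) (iter_even hzb j) v
      have hv' : j ≤ v.length := by simpa using hv
      cases x with
      | false =>
        rw [l1]
        exact ih (sig y) z (sig_ne hy) hz hzb hzy _ (by simpa using hv')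
      | true =>
        rw [l2]
        exact ih (sig y) z (sig_ne hy) hz hzb hzy _ hv'

theorem sig_three (y : L) : sig (sig (sig y)) = y := by cases y <;> rfl

theorem sig_iter_mod (j : ℕ) (y : L) : sig^[j] y = sig^[j % 3] y := by
  conv_lhs => rw [← Nat.mod_add_div j 3]
  rw [Function.iterate_add_apply]
  congr 1
  rw [Function.iterate_mul]
  have : sig^[3] = id := by
    funext y
    exact sig_three y
  rw [this]; simp

theorem stmt_PHN (h1 : Stmt_PHSEC) (h2 : Stmt_PHW) : Stmt_PHN := by
  intro j hj v hv
  by_cases h0 : j = 0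
  · subst h0
    simp [fl, ph_single, chi_a]
  · have h3 : ¬ 3 ∣ j := by
      rcases hj with h | h
      · exact absurd h h0
      · exact h
    simp only [fl, if_neg h0]
    have hlt : j % 3 < 3 := Nat.mod_lt _ (by norm_num)
    have hne : j % 3 ≠ 0 := fun h => h3 (Nat.dvd_of_mod_eq_zero h)
    rcases (by omega : j % 3 = 1 ∨ j % 3 = 2) with h | h
    · apply ph_iter_zero h1 h2 j .b _ (by simp) _ _ _ v hv.le
      · simp [h]
      · simp [h]
      · rw [sig_iter_mod, h]; simp [sig]
    · apply ph_iter_zero h1 h2 j .b _ (by simp) _ _ _ v hv.le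
      · simp [h]
      · simp [h]
      · rw [sig_iter_mod, h]; simp [sig]

theorem sum_vs_succ (D : ℕ) (F : List Bool → ℝ) :
    ∑ v ∈ vs (D + 1), F v = ∑ v ∈ vs D, F (false :: v) + ∑ v ∈ vs D, F (true :: v) := by
  classical
  have : vs (D + 1) = (vs D).image (List.cons false) ∪ (vs D).image (List.cons true) := by
    ext v
    cases v with
    | nil => simp
    | cons x v => cases x <;> simp
  rw [this, Finset.sum_union, Finset.sum_image, Finset.sum_image]
  · intro a _ b _ h; exact (List.cons.inj h).2
  · intro a _ b _ h; exact (List.cons.inj h).2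
  · rw [Finset.disjoint_left]
    intro v hv hv'
    rw [Finset.mem_image] at hv hv'
    obtain ⟨a, _, ha⟩ := hv
    obtain ⟨b, _, hb⟩ := hv'
    rw [← ha] at hb
    exact absurd (List.cons.inj hb).1 (by simp)

theorem sum_vs_act (D : ℕ) (s : L) (F : List Bool → ℝ) :
    ∑ v ∈ vs D, F (act s v) = ∑ v ∈ vs D, F v := by
  apply Finset.sum_nbij' (act s) (act s)
  · intro v hv; simpa using hv
  · intro v hv; simpa using hv
  · intro v _; exact act_act s v
  · intro v _; exact act_act s v
  · intro v _; rfl

/-- like `rr`, for a general letter -/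
noncomputable def rg (y : L) (u : List L) (v : List Bool) : ℝ := if ph y u v = 0 then 0 else 1

theorem rg_iter (h1 : Stmt_PHSEC) (h2 : Stmt_PHW) (j : ℕ) : ∀ (D : ℕ) (y z : L), y ≠ .a → z ≠ .a →
    z ≠ .b → j ≤ D → ∑ v ∈ vs D, rg y (wd (zeta^[j] [z])) v ≤ 2 ^ j := by
  induction j with
  | zero =>
    intro D y z hy hz hzb _
    have hle : ∀ v ∈ vs D, rg y (wd (zeta^[0] [z])) v ≤ if v = oo D then (1 : ℝ) else 0 := by
      intro v hv
      by_cases hvo : v = oo D
      · rw [if_pos hvo]
        unfold rg
        split_ifs <;> norm_num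
      · rw [if_neg hvo]
        have : ph y (wd (zeta^[0] [z])) v = 0 := by
          have hlen : v.length = D := by simpa using hv
          have hv2 : v ≠ List.replicate v.length true := by
            rw [hlen]; exact hvo
          simp [wd, ph, chi_a, hv2]
        unfold rg
        rw [if_pos this]
    refine (Finset.sum_le_sum hle).trans ?_
    rw [Finset.sum_ite_eq']
    split_ifs <;> norm_num
  | succ j ih =>
    intro D y z hy hz hzb hjD
    obtain ⟨D, rfl⟩ : ∃ D', D = D' + 1 := ⟨D - 1, by omega⟩
    rw [sum_vs_succ]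
    have e1 : ∀ v ∈ vs D, rg y (wd (zeta^[j+1] [z])) (false :: v) =
        rg (sig y) (wd (zeta^[j] [z])) (act .a v) := by
      intro v _
      unfold rg
      rw [Function.iterate_succ_apply',
        (ph_lift h1 h2 y hy (zeta^[j] [z]) (iter_ne hz j) (iter_even hzb j) v).1]
    have e2 : ∀ v ∈ vs D, rg y (wd (zeta^[j+1] [z])) (true :: v) =
        rg (sig y) (wd (zeta^[j] [z])) v := by
      intro v _
      unfold rg
      rw [Function.iterate_succ_apply',
        (ph_lift h1 h2 y hy (zeta^[j] [z]) (iter_ne hz j) (iter_even hzb j) v).2]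
    rw [Finset.sum_congr rfl e1, Finset.sum_congr rfl e2,
      sum_vs_act D .a (rg (sig y) (wd (zeta^[j] [z])))]
    have := ih D (sig y) z (sig_ne hy) hz hzb (by omega)
    rw [pow_succ]
    linarith

theorem stmt_PHS (h1 : Stmt_PHSEC) (h2 : Stmt_PHW) : Stmt_PHS := by
  intro j D hj
  by_cases h0 : j = 0
  · subst h0
    have : ∀ v ∈ vs D, rr (fl 0) v = 0 := by
      intro v _
      simp [rr, fl, ph_single, chi_a]
    rw [Finset.sum_congr rfl this]
    simp
  · have := rg_iter h1 h2 j D .b (if j % 3 = 2 then .d else .c) (by simp)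
      (by split_ifs <;> simp) (by split_ifs <;> simp) hj.le
    simp only [fl, if_neg h0]
    exact this

end GrigGrowth.helper28
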